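import Pool.Agent.ASE.Stmts7

/-!
# Squad ASE, row KE2: division by `ℓ`, residues
-/

open scoped BigOperators

noncomputable section

namespace Pool.Agent.PP.SE.H17

open Pool.Agent.PP Pool.Agent.PP.SO Pool.Agent.PP.SD Pool.Agent.PP.SE

open Classical in
theorem fsum {α M : Type} [Fintype α] [AddCommMonoid M] (P : α → Prop) (f : α → M) :
    ∑ᶠ a ∈ {a : α | P a}, f a = ∑ a, if P a then f a else 0 := by
  rw [finsum_eq_sum_of_fintype]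
  exact Finset.sum_congr rfl fun c _ => finsum_eq_if

/-- **KE2**. -/
theorem ke2 (Rsl : SO.RslStmt) (Prb : PrbStmt) (Ke1 : Ke1Stmt) : Ke2Stmt := by
  classical
  intro ℓ _ h2' V₀ _ _ E₀ hFr D N z y k K
  obtain ⟨⟨k', hk⟩, hD⟩ := Ke1 ℓ h2' V₀ E₀ hFr D N z y k K
  obtain ⟨hR1, -, -⟩ := Rsl ℓ
  have hℓ0 : (ℓ : ℚ) ≠ 0 := by
    have := (Fact.out : ℓ.Prime).pos
    positivity
  let r : SOR.Rl ℓ →+* ZMod ℓ :=
    { toFun := fun x => ((x : ℚ) : ZMod ℓ)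
      map_one' := by simp
      map_zero' := by simp
      map_add' := fun x y => (hR1 x x.2 y y.2).1
      map_mul' := fun x y => (hR1 x x.2 y y.2).2 }
  have hrℓ : r (ℓ : SOR.Rl ℓ) = 0 := by
    rw [map_natCast]
    exact ZMod.natCast_self ℓ
  have hD' : ∀ c, ∃ q : SOR.Rl ℓ, (c = 1 → q = 0) ∧ (c ≠ 1 → D c = ℓ * (q : ℚ)) := by
    intro c
    by_cases hc : c = 1
    · exact ⟨0, fun _ => rfl, fun h => absurd hc h⟩
    · obtain ⟨q, hq, h⟩ := hD c hc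
      exact ⟨⟨q, hq⟩, fun h => absurd h hc, fun _ => h⟩
  have hN' : ∀ c d, ∃ q : SOR.Rl ℓ, c ≠ 1 → d ≠ 1 → N c d = ℓ * (q : ℚ) := by
    intro c d
    by_cases hc : c ≠ 1 ∧ d ≠ 1
    · obtain ⟨q, hq, h⟩ := K.n1 c d hc.1 hc.2
      exact ⟨⟨q, hq⟩, fun _ _ => h⟩
    · exact ⟨0, fun h1 h2 => absurd ⟨h1, h2⟩ hc⟩
  have hz' : ∀ a, ∃ q : SOR.Rl ℓ, a ∈ RL ℓ E₀ → z a = ℓ * (q : ℚ) := by
    intro a
    by_cases ha : a ∈ RL ℓ E₀
    · obtain ⟨q, hq, h⟩ := K.zr a ha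
      exact ⟨⟨q, hq⟩, fun _ => h⟩
    · exact ⟨0, fun h => absurd h ha⟩
  have hy' : ∀ (a : Subgroup V₀) (κ d : V₀), ∃ q : SOR.Rl ℓ, a ∈ RL ℓ E₀ → κ ∈ a → d ≠ 1 →
      y a κ d = ℓ * (q : ℚ) := by
    intro a κ d
    by_cases ha : a ∈ RL ℓ E₀ ∧ κ ∈ a ∧ d ≠ 1
    · obtain ⟨q, hq, h⟩ := K.yr a ha.1 κ ha.2.1 d ha.2.2
      exact ⟨⟨q, hq⟩, fun _ _ _ => h⟩
    · exact ⟨0, fun h1 h2 h3 => absurd ⟨h1, h2, h3⟩ ha⟩
  choose D' hD0 hD1 using hD'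
  choose N' hN1 using hN'
  choose z' hz1 using hz'
  choose y' hy1 using hy'
  have hpow : ∀ (c : V₀) (j : ℕ), c ≠ 1 → ¬ ℓ ∣ j → c ^ j ≠ 1 := by
    intro c j hc hj h
    have h1 : orderOf c = ℓ := orderOf_eq_prime (hFr.ex c) hc
    exact hj (h1 ▸ orderOf_dvd_of_pow_eq_one h)
  have hnd : ∀ t ∈ Finset.Icc 1 (ℓ - 1), ¬ ℓ ∣ t := by
    intro t ht hdvd
    rw [Finset.mem_Icc] at ht
    have := Nat.le_of_dvd (by omega) hdvd
    omega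
  have huniq : ∀ a b : V₀, a ≠ 1 → b ≠ 1 → D a = D b → D' a = D' b := by
    intro a b ha hb h
    rw [hD1 a ha, hD1 b hb] at h
    exact Subtype.ext (mul_left_cancel₀ hℓ0 h)
  have hpr : ∀ a ∈ RL ℓ E₀, ∀ c, pr ℓ E₀ a c ∈ a := fun a ha =>
    (Prb ℓ V₀ E₀ hFr a).2.2.2.2.1 ha
  refine ⟨fun c => r (D' c), fun c d => r (N' c d), fun a => r (z' a),
    fun a κ d => r (y' a κ d), k', hk, ?_, ?_, ?_, ?_, ?_, ?_, ?_, ?_⟩
  · simp only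
    rw [hD0 1 rfl, map_zero]
  · intro c j hj
    simp only
    by_cases hc : c = 1
    · rw [hc, one_pow]
    · rw [huniq (c ^ j) c (hpow c j hc hj) hc (K.dp c j hj)]
  · intro σ hσ c
    simp only
    by_cases hc : c = 1
    · rw [hc, map_one]
    · rw [huniq (σ c) c (by simpa using hc) hc (K.de σ hσ c)]
  · intro a ha σ hσ
    simp only
    have hmp : mp σ a ∈ RL ℓ E₀ := by
      refine ⟨?_, ?_⟩
      · have h1 : Nat.card (mp σ a) = Nat.card a :=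
          (Nat.card_congr (a.equivMapOfInjective (σ : V₀ ≃* V₀).toMonoidHom
            (σ : V₀ ≃* V₀).injective).toEquiv).symm
        rw [h1]
        exact ha.1
      · rw [((Prb ℓ V₀ E₀ hFr a).2.2.2.1 σ hσ).1]
        exact ha.2
    have h1 := K.ze a ha σ hσ
    rw [hz1 a ha, hz1 _ hmp] at h1
    rw [Subtype.ext (mul_left_cancel₀ hℓ0 h1)]
  · obtain ⟨q, hq, h⟩ := K.hh
    let _ : Fintype V₀ := Fintype.ofFinite V₀
    have hsum : ∑ᶠ c ∈ {c : V₀ | c ≠ 1}, D c = ℓ * ∑ c, (D' c : ℚ) := by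
      rw [Finset.mul_sum, ← finsum_eq_sum_of_fintype]
      refine finsum_congr fun c => ?_
      by_cases hc : c = 1
      · simp [hc, hD0 1 rfl]
      · rw [finsum_eq_if, if_pos (show c ∈ {c : V₀ | c ≠ 1} from hc), hD1 c hc]
    rw [hsum, hk] at h
    have h2 : (Nat.card E₀ : SOR.Rl ℓ) * (k' : SOR.Rl ℓ) + ∑ c, D' c = ℓ * ⟨q, hq⟩ := by
      apply Subtype.ext
      push_cast at h ⊢
      apply mul_left_cancel₀ hℓ0
      linear_combination h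
    have h3 := congrArg r h2
    rw [map_add, map_mul, map_mul, map_sum, hrℓ, zero_mul, map_natCast, map_intCast] at h3
    rw [finsum_eq_sum_of_fintype]
    linear_combination h3
  · intro ρ₁ ρ₂ h1 h2 c d hc hd
    obtain ⟨q, hq, h⟩ := K.n2 hD ρ₁ ρ₂ h1 h2 c d hc hd
    let _ : Fintype E₀ := Fintype.ofFinite E₀
    let _ : Fintype (Subgroup V₀) := Fintype.ofFinite (Subgroup V₀)
    -- the functions in the ring
    let x₁ : V₀ → SOR.Rl ℓ := fun v => ((ρ₁ v).val : SOR.Rl ℓ)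
    let x₂ : V₀ → SOR.Rl ℓ := fun v => ((ρ₂ v).val : SOR.Rl ℓ)
    have hx₁ : ∀ v, r (x₁ v) = ρ₁ v := fun v => by
      simp only [x₁, map_natCast, ZMod.natCast_zmod_val]
    have hx₂ : ∀ v, r (x₂ v) = ρ₂ v := fun v => by
      simp only [x₂, map_natCast, ZMod.natCast_zmod_val]
    let S₁ : SOR.Rl ℓ := ∑ a : Subgroup V₀, if a ∈ RL ℓ E₀ ∧ c ∉ a then
      x₁ (pr ℓ E₀ a c) * x₂ d * y' a (pr ℓ E₀ a c) d else 0
    let S₂ : SOR.Rl ℓ := ∑ b : Subgroup V₀, if b ∈ RL ℓ E₀ ∧ d ∉ b then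
      x₁ c * x₂ (pr ℓ E₀ b d) * y' b (pr ℓ E₀ b d) c else 0
    let T₀ : MulAut V₀ → SOR.Rl ℓ := fun σ => ∑ a : Subgroup V₀,
      if a ∈ RL ℓ E₀ ∧ c * σ d ∉ a then
        x₁ (pr ℓ E₀ a (c * σ d)) * x₂ (σ⁻¹ (pr ℓ E₀ a (c * σ d))) * z' a else 0
    let T : MulAut V₀ → SOR.Rl ℓ := fun σ =>
      x₁ (c * σ d) * x₂ (σ⁻¹ (c * σ d)) * D' (c * σ d) - T₀ σ
    have e1 : (∑ᶠ a ∈ {a : Subgroup V₀ | a ∈ RL ℓ E₀ ∧ c ∉ a},
        ((((ρ₁ (pr ℓ E₀ a c)).val : ℤ) * ((ρ₂ d).val : ℤ) : ℤ) : ℚ) * y a (pr ℓ E₀ a c) d) =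
        ℓ * (S₁ : ℚ) := by
      rw [fsum (fun a : Subgroup V₀ => a ∈ RL ℓ E₀ ∧ c ∉ a)]
      simp only [S₁]
      rw [AddSubmonoidClass.coe_finset_sum, Finset.mul_sum]
      refine Finset.sum_congr rfl fun a _ => ?_
      by_cases ha : a ∈ RL ℓ E₀ ∧ c ∉ a
      · rw [if_pos ha, if_pos ha, hy1 a _ d ha.1 (hpr a ha.1 c) hd]
        simp only [x₁, x₂]
        push_cast
        ring
      · rw [if_neg ha, if_neg ha]
        simp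
    have e2 : (∑ᶠ b ∈ {b : Subgroup V₀ | b ∈ RL ℓ E₀ ∧ d ∉ b},
        ((((ρ₁ c).val : ℤ) * ((ρ₂ (pr ℓ E₀ b d)).val : ℤ) : ℤ) : ℚ) * y b (pr ℓ E₀ b d) c) =
        ℓ * (S₂ : ℚ) := by
      rw [fsum (fun b : Subgroup V₀ => b ∈ RL ℓ E₀ ∧ d ∉ b)]
      simp only [S₂]
      rw [AddSubmonoidClass.coe_finset_sum, Finset.mul_sum]
      refine Finset.sum_congr rfl fun a _ => ?_
      by_cases ha : a ∈ RL ℓ E₀ ∧ d ∉ a
      · rw [if_pos ha, if_pos ha, hy1 a _ c ha.1 (hpr a ha.1 d) hc]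
        simp only [x₁, x₂]
        push_cast
        ring
      · rw [if_neg ha, if_neg ha]
        simp
    have e3 : ∀ σ : MulAut V₀, (∑ᶠ a ∈ {a : Subgroup V₀ | a ∈ RL ℓ E₀ ∧ c * σ d ∉ a},
        ((((ρ₁ (pr ℓ E₀ a (c * σ d))).val : ℤ) *
          ((ρ₂ (σ⁻¹ (pr ℓ E₀ a (c * σ d)))).val : ℤ) : ℤ) : ℚ) * z a) = ℓ * (T₀ σ : ℚ) := by
      intro σ
      rw [fsum (fun a : Subgroup V₀ => a ∈ RL ℓ E₀ ∧ c * σ d ∉ a)]
      simp only [T₀]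
      rw [AddSubmonoidClass.coe_finset_sum, Finset.mul_sum]
      refine Finset.sum_congr rfl fun a _ => ?_
      by_cases ha : a ∈ RL ℓ E₀ ∧ c * σ d ∉ a
      · rw [if_pos ha, if_pos ha, hz1 a ha.1]
        simp only [x₁, x₂]
        push_cast
        ring
      · rw [if_neg ha, if_neg ha]
        simp
    have hT1 : ∀ σ : MulAut V₀, c * σ d = 1 → T σ = 0 := by
      intro σ hσ
      simp only [T, T₀]
      rw [hσ, hD0 1 rfl, mul_zero, zero_sub, neg_eq_zero]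
      refine Finset.sum_eq_zero fun a _ => ?_
      rw [if_neg fun h => h.2 a.one_mem]
    have e4 : (∑ᶠ σ ∈ {σ : MulAut V₀ | σ ∈ E₀ ∧ c * σ d ≠ 1},
        (((((ρ₁ (c * σ d)).val : ℤ) * ((ρ₂ (σ⁻¹ (c * σ d))).val : ℤ) : ℤ) : ℚ) * D (c * σ d) -
          ∑ᶠ a ∈ {a : Subgroup V₀ | a ∈ RL ℓ E₀ ∧ c * σ d ∉ a},
          ((((ρ₁ (pr ℓ E₀ a (c * σ d))).val : ℤ) *
            ((ρ₂ (σ⁻¹ (pr ℓ E₀ a (c * σ d)))).val : ℤ) : ℤ) : ℚ) * z a)) =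
        ℓ * ((∑ σ : E₀, T σ.1 : SOR.Rl ℓ) : ℚ) := by
      rw [AddSubmonoidClass.coe_finset_sum, Finset.mul_sum, ← finsum_eq_sum_of_fintype,
        finsum_subtype_eq_finsum_cond (fun σ => σ ∈ E₀)
          (f := fun σ : MulAut V₀ => (ℓ : ℚ) * (T σ : ℚ))]
      refine finsum_congr fun σ => ?_
      rw [finsum_eq_if, finsum_eq_if]
      by_cases hσ : σ ∈ E₀
      · by_cases hcd : c * σ d = 1
        · rw [if_neg (fun h => h.2 hcd), if_pos hσ, hT1 σ hcd]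
          simp
        · rw [if_pos (show σ ∈ {σ : MulAut V₀ | σ ∈ E₀ ∧ c * σ d ≠ 1} from ⟨hσ, hcd⟩),
            if_pos hσ, hD1 _ hcd, e3 σ]
          simp only [T, x₁, x₂]
          push_cast
          ring
      · rw [if_neg (fun h => hσ h.1), if_neg hσ]
    unfold RNE at h
    rw [e1, e2, e4, hN1 c d hc hd] at h
    have h2 : x₁ c * x₂ d * N' c d - S₁ - S₂ - ∑ σ : E₀, T σ.1 = ℓ * ⟨q, hq⟩ := by
      apply Subtype.ext
      simp only [x₁, x₂]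
      push_cast at h ⊢
      apply mul_left_cancel₀ hℓ0
      linear_combination h
    have h3 := congrArg r h2
    have f5 : r (∑ σ : E₀, T σ.1) = ∑ σ : E₀, r (T σ.1) := map_sum r _ _
    rw [map_sub, map_sub, map_sub, map_mul, map_mul, hx₁, hx₂, map_mul, hrℓ, zero_mul,
      f5] at h3
    have f1 : r S₁ = ∑ᶠ a ∈ {a : Subgroup V₀ | a ∈ RL ℓ E₀ ∧ c ∉ a},
        r (y' a (pr ℓ E₀ a c) d) * (ρ₁ (pr ℓ E₀ a c) * ρ₂ d) := by
      rw [fsum (fun a : Subgroup V₀ => a ∈ RL ℓ E₀ ∧ c ∉ a)]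
      simp only [S₁]
      rw [map_sum]
      refine Finset.sum_congr rfl fun a _ => ?_
      by_cases ha : a ∈ RL ℓ E₀ ∧ c ∉ a
      · rw [if_pos ha, if_pos ha, map_mul, map_mul, hx₁, hx₂]
        ring
      · rw [if_neg ha, if_neg ha, map_zero]
    have f2 : r S₂ = ∑ᶠ b ∈ {b : Subgroup V₀ | b ∈ RL ℓ E₀ ∧ d ∉ b},
        r (y' b (pr ℓ E₀ b d) c) * (ρ₁ c * ρ₂ (pr ℓ E₀ b d)) := by
      rw [fsum (fun b : Subgroup V₀ => b ∈ RL ℓ E₀ ∧ d ∉ b)]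
      simp only [S₂]
      rw [map_sum]
      refine Finset.sum_congr rfl fun a _ => ?_
      by_cases ha : a ∈ RL ℓ E₀ ∧ d ∉ a
      · rw [if_pos ha, if_pos ha, map_mul, map_mul, hx₁, hx₂]
        ring
      · rw [if_neg ha, if_neg ha, map_zero]
    have f3 : ∀ σ : E₀, r (T σ.1) = r (D' (c * σ.1 d)) *
        (ρ₁ (c * σ.1 d) * ρ₂ (σ.1⁻¹ c * d)) -
        ∑ᶠ a ∈ {a : Subgroup V₀ | a ∈ RL ℓ E₀ ∧ c * σ.1 d ∉ a},
        r (z' a) * (ρ₁ (pr ℓ E₀ a (c * σ.1 d)) * ρ₂ (σ.1⁻¹ (pr ℓ E₀ a (c * σ.1 d)))) := by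
      intro σ
      have h4 : σ.1⁻¹ (c * σ.1 d) = σ.1⁻¹ c * d := by
        rw [map_mul]
        congr 1
        exact MulAut.inv_apply_self V₀ σ.1 d
      rw [fsum (fun a : Subgroup V₀ => a ∈ RL ℓ E₀ ∧ c * σ.1 d ∉ a)]
      simp only [T, T₀]
      rw [map_sub, map_mul, map_mul, hx₁, hx₂, h4, map_sum]
      congr 1
      · ring
      · refine Finset.sum_congr rfl fun a _ => ?_
        by_cases ha : a ∈ RL ℓ E₀ ∧ c * σ.1 d ∉ a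
        · rw [if_pos ha, if_pos ha, map_mul, map_mul, hx₁, hx₂]
          ring
        · rw [if_neg ha, if_neg ha, map_zero]
    have f4 : (∑ᶠ σ : E₀, (r (D' (c * σ.1 d)) *
        (ρ₁ (c * σ.1 d) * ρ₂ (σ.1⁻¹ c * d)) -
        ∑ᶠ a ∈ {a : Subgroup V₀ | a ∈ RL ℓ E₀ ∧ c * σ.1 d ∉ a},
        r (z' a) * (ρ₁ (pr ℓ E₀ a (c * σ.1 d)) * ρ₂ (σ.1⁻¹ (pr ℓ E₀ a (c * σ.1 d)))))) =
        ∑ σ : E₀, r (T σ.1) := by
      rw [finsum_eq_sum_of_fintype]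
      exact Finset.sum_congr rfl fun σ _ => (f3 σ).symm
    beta_reduce
    rw [← f1, ← f2, f4]
    linear_combination h3
  · intro c d hc hd
    obtain ⟨q, hq, h⟩ := K.sf c d hc hd
    have hsum : ∑ t ∈ Finset.Icc 1 (ℓ - 1), ∑ s ∈ Finset.Icc 1 (ℓ - 1), N (c ^ t) (d ^ s) =
        ℓ * ∑ t ∈ Finset.Icc 1 (ℓ - 1), ∑ s ∈ Finset.Icc 1 (ℓ - 1), (N' (c ^ t) (d ^ s) : ℚ) := by
      rw [Finset.mul_sum]
      refine Finset.sum_congr rfl fun t ht => ?_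
      rw [Finset.mul_sum]
      refine Finset.sum_congr rfl fun s hs => ?_
      exact hN1 _ _ (hpow c t hc (hnd t ht)) (hpow d s hd (hnd s hs))
    rw [hsum, hD1 c hc, hD1 d hd, hk] at h
    have h2 : (∑ t ∈ Finset.Icc 1 (ℓ - 1), ∑ s ∈ Finset.Icc 1 (ℓ - 1), N' (c ^ t) (d ^ s)) +
        (Nat.card E₀ : SOR.Rl ℓ) * ((ℓ : SOR.Rl ℓ) - 1) * (D' c + D' d) +
        (Nat.card E₀ : SOR.Rl ℓ) ^ 2 * (k' : SOR.Rl ℓ) = ℓ * ⟨q, hq⟩ := by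
      apply Subtype.ext
      push_cast at h ⊢
      apply mul_left_cancel₀ hℓ0
      linear_combination h
    have h3 := congrArg r h2
    simp only [map_sub, map_add, map_mul, map_sum, map_natCast, map_intCast, map_one, map_pow,
      ZMod.natCast_self, zero_mul] at h3
    linear_combination h3
  · intro a ha κ hκ d hd
    obtain ⟨q, hq, h⟩ := K.sy a ha κ hκ d hd
    have hsum : ∑ t ∈ Finset.Icc 1 (ℓ - 1), ∑ s ∈ Finset.Icc 1 (ℓ - 1), y a (κ ^ t) (d ^ s) =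
        ℓ * ∑ t ∈ Finset.Icc 1 (ℓ - 1), ∑ s ∈ Finset.Icc 1 (ℓ - 1),
          (y' a (κ ^ t) (d ^ s) : ℚ) := by
      rw [Finset.mul_sum]
      refine Finset.sum_congr rfl fun t ht => ?_
      rw [Finset.mul_sum]
      refine Finset.sum_congr rfl fun s hs => ?_
      exact hy1 a _ _ ha (a.pow_mem hκ t) (hpow d s hd (hnd s hs))
    rw [hsum, hz1 a ha] at h
    have h2 : (∑ t ∈ Finset.Icc 1 (ℓ - 1), ∑ s ∈ Finset.Icc 1 (ℓ - 1), y' a (κ ^ t) (d ^ s)) -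
        (Nat.card E₀ : SOR.Rl ℓ) * z' a = ℓ * ⟨q, hq⟩ := by
      apply Subtype.ext
      push_cast at h ⊢
      apply mul_left_cancel₀ hℓ0
      linear_combination h
    have h3 := congrArg r h2
    simp only [map_sub, map_mul, map_sum, map_natCast, ZMod.natCast_self, zero_mul] at h3
    exact sub_eq_zero.1 h3

end Pool.Agent.PP.SE.H17
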